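import Pool.Agent.W945.Lc.Stm

/-!
# CASETWO: an input that is used twice
-/

set_option autoImplicit false

namespace Pool.Agent.W930.Lc.CASETWO

open Finset Pool.Agent.W945.Pw Pool.Agent.W945.Lc

variable {n s : ℕ}

theorem av_mono {g : ℕ → Fn n} {P Q : ℕ → Prop} {a : Fn n} (h : Av g P a)
    (hPQ : ∀ j, P j → Q j) : Av g Q a := by
  obtain ⟨c, h | h | ⟨j, hj, h⟩⟩ := h
  · exact ⟨c, Or.inl h⟩
  · exact ⟨c, Or.inr (Or.inl h)⟩
  · exact ⟨c, Or.inr (Or.inr ⟨j, hPQ j hj, h⟩)⟩

theorem av_xor {g : ℕ → Fn n} {P : ℕ → Prop} {a : Fn n} (h : Av g P a) (b : Bool) :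
    Av g P (fun x => xor (a x) b) := by
  obtain ⟨c, h | ⟨i, h⟩ | ⟨j, hj, h⟩⟩ := h
  · exact ⟨xor c b, Or.inl fun x => by simp only [h x]⟩
  · exact ⟨xor c b, Or.inr (Or.inl ⟨i, fun x => by simp only [h x, Bool.xor_assoc]⟩)⟩
  · exact ⟨xor c b, Or.inr (Or.inr ⟨j, hj, fun x => by simp only [h x, Bool.xor_assoc]⟩)⟩

theorem before_of_uses (W : Wired n s) {k : ℕ} (hk : k < s) {v : Node n} (h : W.Uses k v) :
    v.Before k := by
  rcases h with h | h
  · rw [← h]; exact W.hA k hk
  · rw [← h]; exact W.hB k hk

theorem split (W : Wired n s) {F : Fn n} {γ : Bool} (hm : W.Min F γ) {k : ℕ} (hk : k < s)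
    {v : Node n} (h : W.Uses k v) : ∃ (a b : Bool) (z : Node n), z ≠ v ∧ z.Before k ∧
      (∀ x, W.g k x = (xor (v.fn W.g x) a && xor (z.fn W.g x) b)) ∧
      ∀ w, W.Uses k w → w = v ∨ w = z := by
  rcases h with h | h
  · subst h
    refine ⟨W.α k, W.β k, W.B k, (hm.ne k hk).symm, W.hB k hk, W.rule k hk, ?_⟩
    rintro w (h | h)
    · exact Or.inl h.symm
    · exact Or.inr h.symm
  · subst h
    refine ⟨W.β k, W.α k, W.A k, hm.ne k hk, W.hA k hk, fun x => ?_, ?_⟩
    · rw [W.rule k hk x, Bool.and_comm]
    · rintro w (h | h)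
      · exact Or.inr h.symm
      · exact Or.inl h.symm

/-- The node is constant after the restriction. -/
def NC (W : Wired n s) (u : Fin n) (c : Bool) (v : Node n) : Prop :=
  ∃ d, ∀ x, res (v.fn W.g) u c x = d

theorem nc_inp (W : Wired n s) (u : Fin n) (c : Bool) : NC W u c (.inp u) :=
  ⟨c, fun x => by simp [res, Node.fn]⟩

theorem av_rf (W : Wired n s) (u : Fin n) (c : Bool) {v : Node n} {k : ℕ} (hv : v.Before k) :
    Av (fun j => res (W.g j) u c) (fun j => j < k) (res (v.fn W.g) u c) := by
  cases v with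
  | inp i =>
    by_cases hi : i = u
    · subst hi
      exact ⟨c, Or.inl fun x => by simp [res, Node.fn]⟩
    · exact ⟨false, Or.inr (Or.inl ⟨i, fun x => by simp [res, Node.fn, hi]⟩)⟩
  | gt j => exact ⟨false, Or.inr (Or.inr ⟨j, hv, fun x => by simp [Node.fn]⟩)⟩

section

variable (W : Wired n s) {F : Fn n} {γ : Bool} (hm : W.Min F γ) (u : Fin n) (c : Bool)

include hm

theorem triv {l : ℕ} (hl : l < s) {v : Node n} (hu : W.Uses l v) (hv : NC W u c v) :
    Av (fun j => res (W.g j) u c) (fun j => j < l) (res (W.g l) u c) := by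
  obtain ⟨a, b, z, -, hz, hr, -⟩ := split W hm hl hu
  obtain ⟨d, hd⟩ := hv
  have h1 : ∀ x, res (W.g l) u c x = (xor d a && xor (res (z.fn W.g) u c x) b) := fun x => by
    have h2 := hr (Function.update x u c)
    have h3 : v.fn W.g (Function.update x u c) = d := hd x
    rw [h3] at h2
    exact h2
  cases hda : xor d a with
  | false => exact ⟨false, Or.inl fun x => by rw [h1 x, hda]; rfl⟩
  | true =>
    have h4 := av_xor (av_rf W u c hz) b
    have h5 : res (W.g l) u c = fun x => xor (res (z.fn W.g) u c x) b := by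
      funext x
      rw [h1 x, hda, Bool.true_and]
    rw [h5]
    exact h4

theorem nc_two {l : ℕ} (hl : l < s) {v w : Node n} (hu : W.Uses l v) (hw : W.Uses l w)
    (hvw : w ≠ v) (hv : NC W u c v) (hw' : NC W u c w) : NC W u c (.gt l) := by
  obtain ⟨a, b, z, -, -, hr, hall⟩ := split W hm hl hu
  have hz : w = z := (hall w hw).resolve_left hvw
  subst hz
  obtain ⟨d, hd⟩ := hv
  obtain ⟨e, he⟩ := hw'
  refine ⟨xor d a && xor e b, fun x => ?_⟩
  have h2 := hr (Function.update x u c)
  have h3 : v.fn W.g (Function.update x u c) = d := hd x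
  have h4 : w.fn W.g (Function.update x u c) = e := he x
  rw [h3, h4] at h2
  exact h2

theorem user (hnc : ¬ ∃ b, ∀ x, res F u c x = b) {k : ℕ} (hk : k < s)
    (h : NC W u c (.gt k)) : ∃ l, k < l ∧ l < s ∧ W.Uses l (.gt k) := by
  have hk1 : k + 1 < s := by
    by_contra hcon
    have hks : k = s - 1 := by omega
    apply hnc
    obtain ⟨d, hd⟩ := h
    refine ⟨xor d γ, fun x => ?_⟩
    have h1 : W.g k (Function.update x u c) = d := hd x
    change F (Function.update x u c) = _
    rw [hm.out, ← hks, h1]
  obtain ⟨l, hl, hu⟩ := hm.used k hk1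
  exact ⟨l, before_of_uses W hl hu, hl, hu⟩

theorem drop (hdel : DEL.Stm) (hbase : BASE.Stm) (K : Finset ℕ) (m : ℕ) (hcard : K.card = m)
    (hK : ∀ k ∈ K, k < s ∧
      Av (fun j => res (W.g j) u c) (fun j => j < k) (res (W.g k) u c)) :
    Drop (res F u c) s m := by
  have hsub : K ⊆ range s := fun k hk => mem_range.2 (hK k hk).1
  have hchain : Chain s (fun j => res (W.g j) u c) := by
    intro k hk
    refine ⟨_, _, av_xor (av_rf W u c (W.hA k hk)) (W.α k), av_xor (av_rf W u c (W.hB k hk)) (W.β k),
      fun x => ?_⟩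
    exact W.rule k hk (Function.update x u c)
  have hs := hm.pos
  have hout : Av (fun j => res (W.g j) u c) (fun j => j < s) (res F u c) :=
    ⟨γ, Or.inr (Or.inr ⟨s - 1, by omega, fun x => hm.out (Function.update x u c)⟩)⟩
  have h1 := hdel hbase n s (fun j => res (W.g j) u c) K (res F u c) hsub hchain
    (fun k hk => (hK k hk).2) hout
  have h2 : K.card ≤ s := by
    have := card_le_card hsub
    rwa [card_range] at this
  exact Or.inr ⟨s - K.card, h1, by omega⟩

end

theorem main : CASETWO.Stm := by
  classical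
  intro hbase hdel n s W F γ hm u k₁ k₂ h12 h2s hu1 hu2
  have h1s : k₁ < s := h12.trans h2s
  obtain ⟨c₁, β₁, z₁, hz1, hz1b, hr1, hall1⟩ := split W hm h1s hu1
  obtain ⟨c₂, β₂, z₂, hz2, hz2b, hr2, hall2⟩ := split W hm h2s hu2
  refine ⟨c₁, c₂, fun c => ?_⟩
  by_cases hnc : ∃ b, ∀ x, res F u c x = b
  · exact Or.inl hnc
  have t1 := triv W hm u c h1s hu1 (nc_inp W u c)
  have t2 := triv W hm u c h2s hu2 (nc_inp W u c)
  have n1 : c = c₁ → NC W u c (.gt k₁) := fun h => ⟨false, fun x => by
    have h3 := hr1 (Function.update x u c)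
    have h4 : (Node.inp u : Node n).fn W.g (Function.update x u c) = c := by
      simp [Node.fn]
    rw [h4, h, Bool.xor_self, Bool.false_and, ← h] at h3
    exact h3⟩
  have n2 : c = c₂ → NC W u c (.gt k₂) := fun h => ⟨false, fun x => by
    have h3 := hr2 (Function.update x u c)
    have h4 : (Node.inp u : Node n).fn W.g (Function.update x u c) = c := by
      simp [Node.fn]
    rw [h4, h, Bool.xor_self, Bool.false_and, ← h] at h3
    exact h3⟩
  have hk : ∀ (K : Finset ℕ) (m : ℕ), K.card = m → (∀ k ∈ K, k < s ∧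
      Av (fun j => res (W.g j) u c) (fun j => j < k) (res (W.g k) u c)) →
      Drop (res F u c) s m := fun K m h h' => drop W hm u c hdel hbase K m h h'
  by_cases e1 : c = c₁
  · by_cases e2 : c = c₂
    · -- both
      have hkap : 2 + kap c₁ c₂ c = 4 := by
        unfold kap; rw [if_pos e1, if_pos e2]
      rw [hkap]
      obtain ⟨k₃, h23, h3s, hu3⟩ := user W hm u c hnc h2s (n2 e2)
      have t3 := triv W hm u c h3s hu3 (n2 e2)
      by_cases hA : ∃ k₄, k₄ < s ∧ W.Uses k₄ (.gt k₁) ∧ k₄ ≠ k₂ ∧ k₄ ≠ k₃
      · obtain ⟨k₄, h4s, hu4, h42, h43⟩ := hA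
        have h14 : k₁ < k₄ := before_of_uses W h4s hu4
        have t4 := triv W hm u c h4s hu4 (n1 e1)
        refine hk {k₁, k₂, k₃, k₄} 4 ?_ ?_
        · rw [card_insert_of_notMem, card_insert_of_notMem, card_insert_of_notMem,
            card_singleton]
          · simp only [mem_singleton]; omega
          · simp only [mem_insert, mem_singleton]; omega
          · simp only [mem_insert, mem_singleton]; omega
        · intro k hkK
          simp only [mem_insert, mem_singleton] at hkK
          rcases hkK with rfl | rfl | rfl | rfl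
          · exact ⟨h1s, t1⟩
          · exact ⟨h2s, t2⟩
          · exact ⟨h3s, t3⟩
          · exact ⟨h4s, t4⟩
      by_cases hB : W.Uses k₃ (.gt k₁)
      · have hne : (Node.gt k₂ : Node n) ≠ .gt k₁ := fun h => by
          injection h with h; omega
        have n3 := nc_two W hm u c h3s hB hu3 hne (n1 e1) (n2 e2)
        obtain ⟨k₅, h35, h5s, hu5⟩ := user W hm u c hnc h3s n3
        have t5 := triv W hm u c h5s hu5 n3
        refine hk {k₁, k₂, k₃, k₅} 4 ?_ ?_
        · rw [card_insert_of_notMem, card_insert_of_notMem, card_insert_of_notMem,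
            card_singleton]
          · simp only [mem_singleton]; omega
          · simp only [mem_insert, mem_singleton]; omega
          · simp only [mem_insert, mem_singleton]; omega
        · intro k hkK
          simp only [mem_insert, mem_singleton] at hkK
          rcases hkK with rfl | rfl | rfl | rfl
          · exact ⟨h1s, t1⟩
          · exact ⟨h2s, t2⟩
          · exact ⟨h3s, t3⟩
          · exact ⟨h5s, t5⟩
      -- the only user of `k₁` is `k₂`
      exfalso
      have honly : ∀ l, l < s → W.Uses l (.gt k₁) → l = k₂ := by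
        intro l hl hul
        by_contra hne
        by_cases h3 : l = k₃
        · rw [h3] at hul
          exact hB hul
        · exact hA ⟨l, hl, hul, hne, h3⟩
      obtain ⟨l, h1l, hls, hul⟩ := user W hm u c hnc h1s (n1 e1)
      have hl2 := honly l hls hul
      rw [hl2] at hul
      have hz2' : (Node.gt k₁ : Node n) = z₂ := (hall2 _ hul).resolve_left (fun h => by cases h)
      have hcc : c₁ = c₂ := e1.symm.trans e2
      apply hm.least
      have hmem : ∀ (v : Node n) (k : ℕ), v.Before k → v ≠ .gt k₁ →
          Av W.g (fun j => j < k ∧ j ∉ ({k₁} : Finset ℕ)) (v.fn W.g) := by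
        intro v k hv hne
        cases v with
        | inp i => exact ⟨false, Or.inr (Or.inl ⟨i, fun x => by simp [Node.fn]⟩)⟩
        | gt j =>
          refine ⟨false, Or.inr (Or.inr ⟨j, ⟨hv, ?_⟩, fun x => by simp [Node.fn]⟩)⟩
          rw [mem_singleton]
          intro h
          exact hne (by rw [h])
      have hfin := hbase n s W.g {k₁} F (by
        intro k hk'
        rw [mem_singleton] at hk'
        rw [hk']
        exact mem_range.2 h1s) ?_ ?_
      · rwa [card_singleton] at hfin
      · intro k hks hk1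
        rw [mem_singleton] at hk1
        by_cases hk2 : k = k₂
        · subst hk2
          have hz1ne : z₁ ≠ .gt k₁ := by
            intro h
            rw [h] at hz1b
            exact lt_irrefl _ hz1b
          have hz1b' : z₁.Before k := by
            cases z₁ with
            | inp i => trivial
            | gt j => exact lt_trans hz1b h12
          refine ⟨_, _, av_xor (hmem (.inp u) k trivial (fun h => by cases h)) c₂,
            av_xor (hmem z₁ k hz1b' hz1ne) (xor β₁ β₂), fun x => ?_⟩
          rw [hr2 x, ← hz2']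
          change (xor ((Node.inp u : Node n).fn W.g x) c₂ && xor (W.g k₁ x) β₂) = _
          rw [hr1 x, hcc]
          cases xor ((Node.inp u : Node n).fn W.g x) c₂ <;>
            simp
        · have hA' : W.A k ≠ .gt k₁ := fun h => hk2 (honly k hks (Or.inl h))
          have hB' : W.B k ≠ .gt k₁ := fun h => hk2 (honly k hks (Or.inr h))
          exact ⟨_, _, av_xor (hmem _ k (W.hA k hks) hA') (W.α k),
            av_xor (hmem _ k (W.hB k hks) hB') (W.β k), W.rule k hks⟩
      · refine ⟨γ, Or.inr (Or.inr ⟨s - 1, ⟨by omega, ?_⟩, hm.out⟩)⟩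
        rw [mem_singleton]
        omega
    · have hkap : 2 + kap c₁ c₂ c = 3 := by
        unfold kap; rw [if_pos e1, if_neg e2]
      rw [hkap]
      obtain ⟨k₃, h13, h3s, hu3⟩ := user W hm u c hnc h1s (n1 e1)
      by_cases h32 : k₃ = k₂
      · rw [h32] at hu3
        have hne : (Node.gt k₁ : Node n) ≠ .inp u := fun h => by cases h
        have n2' := nc_two W hm u c h2s hu2 hu3 hne (nc_inp W u c) (n1 e1)
        obtain ⟨k₄, h24, h4s, hu4⟩ := user W hm u c hnc h2s n2'
        have t4 := triv W hm u c h4s hu4 n2'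
        refine hk {k₁, k₂, k₄} 3 ?_ ?_
        · rw [card_insert_of_notMem, card_insert_of_notMem, card_singleton]
          · simp only [mem_singleton]; omega
          · simp only [mem_insert, mem_singleton]; omega
        · intro k hkK
          simp only [mem_insert, mem_singleton] at hkK
          rcases hkK with rfl | rfl | rfl
          · exact ⟨h1s, t1⟩
          · exact ⟨h2s, t2⟩
          · exact ⟨h4s, t4⟩
      · have t3 := triv W hm u c h3s hu3 (n1 e1)
        refine hk {k₁, k₂, k₃} 3 ?_ ?_
        · rw [card_insert_of_notMem, card_insert_of_notMem, card_singleton]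
          · simp only [mem_singleton]; omega
          · simp only [mem_insert, mem_singleton]; omega
        · intro k hkK
          simp only [mem_insert, mem_singleton] at hkK
          rcases hkK with rfl | rfl | rfl
          · exact ⟨h1s, t1⟩
          · exact ⟨h2s, t2⟩
          · exact ⟨h3s, t3⟩
  · by_cases e2 : c = c₂
    · have hkap : 2 + kap c₁ c₂ c = 3 := by
        unfold kap; rw [if_neg e1, if_pos e2]
      rw [hkap]
      obtain ⟨k₃, h23, h3s, hu3⟩ := user W hm u c hnc h2s (n2 e2)
      have t3 := triv W hm u c h3s hu3 (n2 e2)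
      refine hk {k₁, k₂, k₃} 3 ?_ ?_
      · rw [card_insert_of_notMem, card_insert_of_notMem, card_singleton]
        · simp only [mem_singleton]; omega
        · simp only [mem_insert, mem_singleton]; omega
      · intro k hkK
        simp only [mem_insert, mem_singleton] at hkK
        rcases hkK with rfl | rfl | rfl
        · exact ⟨h1s, t1⟩
        · exact ⟨h2s, t2⟩
        · exact ⟨h3s, t3⟩
    · have hkap : 2 + kap c₁ c₂ c = 2 := by
        unfold kap; rw [if_neg e1, if_neg e2]
      rw [hkap]
      refine hk {k₁, k₂} 2 ?_ ?_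
      · rw [card_insert_of_notMem, card_singleton]
        simp only [mem_singleton]; omega
      · intro k hkK
        simp only [mem_insert, mem_singleton] at hkK
        rcases hkK with rfl | rfl
        · exact ⟨h1s, t1⟩
        · exact ⟨h2s, t2⟩

end Pool.Agent.W930.Lc.CASETWO
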